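import Pool.Agent.W813.NC.Stm

/-!
# On a Kimura finite object the numerically trivial endomorphisms are nilpotent
-/

set_option autoImplicit false
set_option linter.unusedSectionVars false

open CategoryTheory Limits MonoidalCategory

namespace Pool.Agent.W817.NC

open Pool.Agent.W492.MT (tpow tr)
open Pool.Agent.W492.KC (swp gins gsym EvenFin OddFin)
open Pool.Agent.W239.KC (rpt tr_cyc)
open Pool.Agent.W813.NC

universe v u

section
variable {T : Type u} [Category.{v} T] [MonoidalCategory T] [SymmetricCategory T]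
  [Preadditive T] [MonoidalPreadditive T] [RightRigidCategory T]

theorem gsym_zero_succ (ε : ℤ) (A : T) (n : ℕ) (h : gsym ε A n = 0) : gsym ε A (n + 1) = 0 := by
  show (A ◁ gsym ε A n) ≫ gins ε A n = 0
  rw [h, MonoidalPreadditive.whiskerLeft_zero, Limits.zero_comp]

theorem num_left {N : T} (r s : N ⟶ N) (h : Num (X := N) r) : Num (X := N) (s ≫ r) := by
  intro t
  rw [Category.assoc, tr_cyc, Category.assoc]
  exact h _

theorem powA {A N : T} (ι : A ⟶ N) (π : N ⟶ A) (y : N ⟶ N) (f : End A) (hf : f = ι ≫ y ≫ π)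
    (k : ℕ) : ∃ z : N ⟶ N, f ^ (k + 1) = (ι ≫ (y ≫ z) ≫ π : A ⟶ A) := by
  induction k with
  | zero =>
    refine ⟨𝟙 N, ?_⟩
    rw [zero_add, pow_one, Category.comp_id, hf]
  | succ k ih =>
    obtain ⟨z, hz⟩ := ih
    refine ⟨π ≫ ι ≫ y ≫ z, ?_⟩
    rw [pow_succ, hz, End.mul_def, hf]
    simp only [Category.assoc]

theorem powN {A N : T} (ι : A ⟶ N) (π : N ⟶ A) (y : N ⟶ N) (f : End A) (hf : f = ι ≫ y ≫ π)
    (g : End N) (hg : g = y ≫ π ≫ ι) (k : ℕ) :
    g ^ (k + 1) = (y ≫ π ≫ (f ^ k : End A) ≫ ι : N ⟶ N) := by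
  induction k with
  | zero =>
    rw [zero_add, pow_one, pow_zero, hg, End.one_def, Category.id_comp]
  | succ k ih =>
    rw [pow_succ, ih, pow_succ f, End.mul_def, End.mul_def, hg, hf]
    simp only [Category.assoc]

theorem key (F : Type) [Field F] [CharZero F] [Linear F T] {A N : T} (ι : A ⟶ N) (π : N ⟶ A)
    (ε : ℤ) (he : ε * ε = 1) (a : ℕ) (ha : gsym ε A a = 0) (y : N ⟶ N) (hy : Num (X := N) y)
    (g : End N) (hg : g = y ≫ π ≫ ι) : g ^ (a + 1) = 0 := by
  have h : ∀ f : End A, f = ι ≫ y ≫ π → f ^ a = 0 := by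
    intro f hf
    apply Pool.Agent.W225.KC.kimura_nil F ε he f _ a (gsym_zero_succ ε A a ha)
    intro k
    obtain ⟨z, hz⟩ := powA ι π y f hf k
    rw [hz, tr_cyc]
    simp only [Category.assoc]
    exact hy _
  rw [powN ι π y (ι ≫ y ≫ π : A ⟶ A) rfl g hg, h _ rfl]
  show y ≫ π ≫ (0 : A ⟶ A) ≫ ι = 0
  rw [Limits.zero_comp, Limits.comp_zero, Limits.comp_zero]

end

section
variable (T : Type u) [Category.{v} T] [MonoidalCategory T] [SymmetricCategory T]
  [Preadditive T] [MonoidalPreadditive T] [RightRigidCategory T]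

theorem nlp [IsIdempotentComplete T] (F : Type) [Field F] [CharZero F] [Linear F T]
    (h2 : S_SPL T) (h3 : ∀ N : T, S_NIL F (End N)) : S_NLP T F := by
  intro _ N p hp a b ha hb r hr
  obtain ⟨A, ι, π, hA1, hA2⟩ := IsIdempotentComplete.idempotents_split N p hp
  have hq : (𝟙 N - p) ≫ (𝟙 N - p) = 𝟙 N - p := by
    rw [Preadditive.sub_comp, Preadditive.comp_sub, Preadditive.comp_sub, hp]
    simp
  obtain ⟨B, κ, ρ, hB1, hB2⟩ := IsIdempotentComplete.idempotents_split N (𝟙 N - p) hq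
  have hA : gsym (-1) A a = 0 := (h2 A N ι π hA1 (-1) a).2 (by rw [hA2]; exact ha)
  have hB : gsym 1 B b = 0 := (h2 B N κ ρ hB1 1 b).2 (by rw [hB2]; exact hb)
  have k1 := h3 N (r ≫ π ≫ ι : N ⟶ N) (r ≫ ρ ≫ κ : N ⟶ N) (a + 1) (b + 1)
    (key F κ ρ 1 (by norm_num) b hB r hr _ rfl) (by
      intro s
      apply key F ι π (-1) (by norm_num) a hA ((s : N ⟶ N) ≫ r) (num_left r s hr)
      rw [End.mul_def, Category.assoc])
  have e : ((r ≫ π ≫ ι : N ⟶ N) : N ⟶ N) + (r ≫ ρ ≫ κ : N ⟶ N) = r := by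
    rw [hA2, hB2, ← Preadditive.comp_add, add_sub_cancel, Category.comp_id]
  have k2 : IsNilpotent (R := End N) ((r ≫ π ≫ ι : N ⟶ N) + (r ≫ ρ ≫ κ : N ⟶ N) : N ⟶ N) := k1
  rw [e] at k2
  exact k2

end

end Pool.Agent.W817.NC
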